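import Pool.Agent.R6.Trade.Vec

/-!
Complete simple games with three types of voters: 3-trade robust implies weighted.
-/

namespace Pool.Agent.Results.MP_5465ec_co.CompleteThreeTypes

open Pool.Agent.R6.Trade

/-- **A complete simple game with exactly three types of voters (and any number of shift-minimal
winning vectors) which is 3-trade robust is weighted.** -/
theorem result (N : Type) [Fintype N] [DecidableEq N] (W : Finset N → Prop) (hS : IsSimple W)
    (_hC : IsComplete W) (hT : HasTypes W 3) (h3 : TradeRobust W 3) : Weighted W := by
  obtain ⟨τ, -, hτ⟩ := hT
  exact weighted_of_three_types hS τ (fun a b h => ((hτ a b).1 h).1) h3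

end Pool.Agent.Results.MP_5465ec_co.CompleteThreeTypes
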